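import Mathlib
import Pool.Agent.Helper844.RF.Ring2

/-!
# Locally residually finite varieties of associative rings: necessary conditions

Let a variety `V` of associative rings be locally residually finite. Then every subgroup `T` of
the annihilator of a finitely generated ring in `V` has the following properties: `T / pT` is
finite for every prime `p`, and `T` has no nontrivial divisible quotients. For identities this
means: if `t 0, t 1, ...` are polynomials without constant term in `n` variables and `p` is a
prime, then for some `k < l` the difference `t k - t l` lies in the ideal generated by the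
identities of `V`, all products `x_i (t j)`, `(t j) x_i` and all `p (t j)`. In particular, this
holds for `t j = a y^j b`, and for every prime `p` the variety `V` does not contain all rings with
`x [y, z] t = 0` and `p x = 0`.

Proof: a finitely generated ring `A` has countably many ideals of finite index, while an infinite
group `T / pT` has uncountably many subgroups `K / pT` of index `p`; all these `K` are ideals of
`A`, and in the residually finite ring `A / K` some ideal of finite index meets the image of `T`
trivially.
-/

set_option autoImplicit false

namespace Pool.Agent.Results.MP_8983b8_al.Annihilators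

open Pool.Agent.Helper844.RFRing

/-- Necessary conditions for local residual finiteness of a variety of associative rings. -/
theorem result (I : Set (FreeAlgebra ℤ ℕ)) (h0 : ∀ f ∈ I, constTerm f = 0)
    (hI : LocallyResiduallyFinite I) :
    -- `T / pT` is finite for subgroups `T` of annihilators of finitely generated rings
    (∀ (A : Type) [NonUnitalRing A], InVariety I A → FinGen A → ∀ p : ℕ, p.Prime →
      ∀ T : AddSubgroup A, T ≤ annihilator A →
        Finite (T ⧸ (nsmulAddMonoidHom p : T →+ T).range)) ∧
    -- these subgroups have no nontrivial divisible quotients
    (∀ (A : Type) [NonUnitalRing A], InVariety I A → FinGen A → ∀ T K : AddSubgroup A,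
      T ≤ annihilator A → K ≤ T →
      (∀ z ∈ T, ∀ m : ℕ, 0 < m → ∃ w ∈ T, z - m • w ∈ K) → K = T) ∧
    -- the condition on the identities
    (∀ p : ℕ, p.Prime → ∀ (n : ℕ) (t : ℕ → FreeAlgebra ℤ (Fin n)),
      (∀ k, constTerm (t k) = 0) →
      ∃ k l, k < l ∧ t k - t l ∈ TwoSidedIdeal.span (values I n ∪ products p t)) ∧
    -- the variety does not contain all rings with `x[y,z]t = 0` and `px = 0`
    (∀ p : ℕ, p.Prime → ∃ (A : Type) (_ : NonUnitalRing A),
      (∀ x y z t : A, x * (y * z - z * y) * t = 0) ∧ (∀ x : A, p • x = 0) ∧
      ¬ InVariety I A) := by
  refine ⟨?_, ?_, ?_, ?_⟩
  · intro A _ hA hfg p hp T hT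
    exact annihilator_finite I hI A hA hfg p hp T hT
  · intro A _ hA hfg T K hT hK hdiv
    exact annihilator_not_divisible I hI A hA hfg T K hT hK hdiv
  · intro p hp n t ht
    exact sequence_form I h0 hI p hp n t ht
  · intro p hp
    exact not_contains I hI p hp

end Pool.Agent.Results.MP_8983b8_al.Annihilators
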